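import Mathlib

/-!
# LO2P (helper80): the pure part of the one step loss with exponent two

`F 0 = 0`, `‖P‖ ≤ 1`; at a point where `2 ‖H‖ (1-‖F‖²)/((1-‖x‖²)(1+‖P‖²))` has a local maximum with value `> 1` we get a contradiction: the function `H/(1 + conj (P 0) P)²` would have a strict local maximum of its modulus.
-/

set_option autoImplicit false

open Complex Metric Set Filter Topology

noncomputable section

namespace LO2P

/-- `(1+|P|²)(1+|p|²) = |1+conj p P|² + |P-p|²` -/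
theorem ident (p z : ℂ) : (1 + ‖z‖ ^ 2) * (1 + ‖p‖ ^ 2) =
    ‖1 + (starRingEnd ℂ) p * z‖ ^ 2 + ‖z - p‖ ^ 2 := by
  rw [← Complex.normSq_eq_norm_sq, ← Complex.normSq_eq_norm_sq, ← Complex.normSq_eq_norm_sq,
    ← Complex.normSq_eq_norm_sq]
  simp only [Complex.normSq_apply, Complex.add_re, Complex.add_im, Complex.sub_re, Complex.sub_im,
    Complex.mul_re, Complex.mul_im, Complex.one_re, Complex.one_im, Complex.conj_re, Complex.conj_im]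
  ring

/-- `|1-conj p z|² - |z-p|² = (1-|p|²)(1-|z|²)` -/
theorem ident2 (p z : ℂ) : ‖1 - (starRingEnd ℂ) p * z‖ ^ 2 - ‖z - p‖ ^ 2 =
    (1 - ‖p‖ ^ 2) * (1 - ‖z‖ ^ 2) := by
  rw [← Complex.normSq_eq_norm_sq, ← Complex.normSq_eq_norm_sq, ← Complex.normSq_eq_norm_sq,
    ← Complex.normSq_eq_norm_sq]
  simp only [Complex.normSq_apply, Complex.sub_re, Complex.sub_im,
    Complex.mul_re, Complex.mul_im, Complex.one_re, Complex.one_im, Complex.conj_re, Complex.conj_im]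
  ring

/-- Schwarz-Pick at the centre for maps into the closed disc: `‖P' 0‖ ≤ 1 - ‖P 0‖²`. -/
theorem sp (P : ℂ → ℂ) (hP : DifferentiableOn ℂ P (ball 0 1)) (hm : MapsTo P (ball 0 1) (closedBall 0 1)) :
    ‖deriv P 0‖ ≤ 1 - ‖P 0‖ ^ 2 := by
  have h0 : (0 : ℂ) ∈ ball (0 : ℂ) 1 := mem_ball_self one_pos
  have hP0 : ‖P 0‖ ≤ 1 := by simpa using hm h0
  rcases hP0.lt_or_eq with hlt | heq
  · set p := P 0 with hp
    have hden : ∀ x ∈ ball (0 : ℂ) 1, 1 - (starRingEnd ℂ) p * P x ≠ 0 := by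
      intro x hx he
      have h1 : ‖P x‖ ≤ 1 := by simpa using hm hx
      have h2 : (starRingEnd ℂ) p * P x = 1 := (sub_eq_zero.mp he).symm
      have h3 : ‖p‖ * ‖P x‖ = 1 := by
        have := congrArg norm h2
        rwa [norm_mul, RCLike.norm_conj, norm_one] at this
      nlinarith [norm_nonneg p, norm_nonneg (P x)]
    set Q : ℂ → ℂ := fun x => (P x - p) / (1 - (starRingEnd ℂ) p * P x) with hQ
    have hQd : DifferentiableOn ℂ Q (ball 0 1) :=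
      (hP.sub_const p).div ((differentiableOn_const _).sub (hP.const_mul _)) hden
    have hQm : MapsTo Q (ball 0 1) (closedBall 0 1) := by
      intro x hx
      have h1 : ‖P x‖ ≤ 1 := by simpa using hm hx
      rw [mem_closedBall_zero_iff, hQ]
      simp only
      rw [norm_div, div_le_one (norm_pos_iff.mpr (hden x hx))]
      have h2 := ident2 p (P x)
      have h3 : 0 ≤ (1 - ‖p‖ ^ 2) * (1 - ‖P x‖ ^ 2) := by
        apply mul_nonneg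
        · nlinarith [norm_nonneg p]
        · nlinarith [norm_nonneg (P x)]
      have h4 : ‖P x - p‖ ^ 2 ≤ ‖1 - (starRingEnd ℂ) p * P x‖ ^ 2 := by linarith
      exact le_of_sq_le_sq h4 (norm_nonneg _)
    have hQ0 : Q 0 = 0 := by
      rw [hQ]; simp [hp]
    have hle : ‖deriv Q 0‖ ≤ 1 := by
      have h1 : ∀ x ∈ ball (0 : ℂ) 1, ‖Q x‖ ≤ ‖x‖ := by
        intro x hx
        exact norm_le_norm_of_mapsTo_ball hQd hQm hQ0 (by simpa using hx)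
      have hder : HasDerivAt Q (deriv Q 0) 0 := (hQd.differentiableAt (isOpen_ball.mem_nhds h0)).hasDerivAt
      have ht := (hasDerivAt_iff_tendsto_slope.1 hder).norm
      refine le_of_tendsto ht ?_
      filter_upwards [mem_nhdsWithin_of_mem_nhds (isOpen_ball.mem_nhds h0), self_mem_nhdsWithin] with x hx hx0
      have hx0' : x ≠ 0 := hx0
      rw [slope_def_field, hQ0, sub_zero, sub_zero, norm_div]
      exact (div_le_one (norm_pos_iff.mpr hx0')).mpr (h1 x hx)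
    have hPd : HasDerivAt P (deriv P 0) 0 := (hP.differentiableAt (isOpen_ball.mem_nhds h0)).hasDerivAt
    have hQder : HasDerivAt Q (deriv P 0 / (1 - (starRingEnd ℂ) p * p)) 0 := by
      have hd := (hPd.sub_const p).div ((hasDerivAt_const (0 : ℂ) (1 : ℂ)).sub (hPd.const_mul ((starRingEnd ℂ) p))) (hden 0 h0)
      have hne : 1 - (starRingEnd ℂ) p * p ≠ 0 := hden 0 h0
      have hd' : HasDerivAt Q ((deriv P 0 * (1 - (starRingEnd ℂ) p * P 0) -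
        (P 0 - p) * (0 - (starRingEnd ℂ) p * deriv P 0)) / (1 - (starRingEnd ℂ) p * P 0) ^ 2) 0 := hd
      refine hd'.congr_deriv ?_
      have e1 : P 0 = p := hp.symm
      rw [e1]
      field_simp
      ring
    rw [hQder.deriv, norm_div] at hle
    have hn : ‖1 - (starRingEnd ℂ) p * p‖ = 1 - ‖p‖ ^ 2 := by
      have h1 : (starRingEnd ℂ) p * p = ((‖p‖ ^ 2 : ℝ) : ℂ) := by
        rw [mul_comm, Complex.mul_conj, Complex.normSq_eq_norm_sq]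
      rw [h1, ← Complex.ofReal_one, ← Complex.ofReal_sub, Complex.norm_real, Real.norm_eq_abs, abs_of_nonneg]
      nlinarith [norm_nonneg p]
    rw [hn] at hle
    have hpos : 0 < 1 - ‖p‖ ^ 2 := by nlinarith [norm_nonneg p]
    rwa [div_le_one hpos] at hle
  · have hmx : IsLocalMax (norm ∘ P) 0 := by
      filter_upwards [isOpen_ball.mem_nhds h0] with x hx
      have : ‖P x‖ ≤ 1 := by simpa using hm hx
      simpa [heq] using this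
    have hd : ∀ᶠ z in 𝓝 (0 : ℂ), DifferentiableAt ℂ P z := by
      filter_upwards [isOpen_ball.mem_nhds h0] with x hx
      exact hP.differentiableAt (isOpen_ball.mem_nhds hx)
    have hev := Complex.eventually_eq_of_isLocalMax_norm hd hmx
    have : deriv P 0 = 0 := by
      have h1 : P =ᶠ[𝓝 0] fun _ => P 0 := hev
      rw [h1.deriv_eq]
      simp
    rw [this, norm_zero, heq]
    norm_num

/-- the strict inequality gives the contradiction -/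
theorem core (F P H : ℂ → ℂ) (ρ : ℝ) (h0 : 0 < ρ) (h1 : ρ ≤ 1) (hFm : MapsTo F (ball 0 1) (ball 0 1))
    (hP : DifferentiableOn ℂ P (ball 0 1)) (hH : DifferentiableOn ℂ H (ball 0 ρ)) (hH0 : H 0 ≠ 0)
    (hmax : ∀ x ∈ ball (0 : ℂ) ρ, ‖H x‖ * (1 - ‖F x‖ ^ 2) * (1 + ‖P 0‖ ^ 2) ≤
      ‖H 0‖ * (1 - ‖x‖ ^ 2) * (1 + ‖P x‖ ^ 2))
    (hstr : ∀ᶠ x in 𝓝 (0 : ℂ), x ≠ 0 → (1 - ‖x‖ ^ 2) *
      (‖1 + (starRingEnd ℂ) (P 0) * P x‖ ^ 2 + ‖P x - P 0‖ ^ 2) <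
      (1 - ‖F x‖ ^ 2) * ‖1 + (starRingEnd ℂ) (P 0) * P x‖ ^ 2) : False := by
  have hU0 : (0 : ℂ) ∈ ball (0 : ℂ) 1 := mem_ball_self one_pos
  set D : ℂ → ℂ := fun x => 1 + (starRingEnd ℂ) (P 0) * P x with hD
  have hDd : DifferentiableOn ℂ D (ball 0 1) := (differentiableOn_const _).add (hP.const_mul _)
  have hD0 : D 0 = ((1 + ‖P 0‖ ^ 2 : ℝ) : ℂ) := by
    rw [hD]
    simp only
    rw [mul_comm, Complex.mul_conj, Complex.normSq_eq_norm_sq]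
    push_cast
    ring
  have hD0n : ‖D 0‖ = 1 + ‖P 0‖ ^ 2 := by
    rw [hD0, Complex.norm_real, Real.norm_eq_abs, abs_of_nonneg]
    positivity
  have hD0ne : D 0 ≠ 0 := by
    rw [← norm_pos_iff, hD0n]
    positivity
  have hDc : ContinuousAt D 0 := (hDd.differentiableAt (isOpen_ball.mem_nhds hU0)).continuousAt
  have hDev : ∀ᶠ x in 𝓝 (0 : ℂ), D x ≠ 0 := hDc.eventually_ne hD0ne
  set E : ℂ → ℂ := fun x => H x / (D x) ^ 2 with hE
  have hEd : ∀ᶠ z in 𝓝 (0 : ℂ), DifferentiableAt ℂ E z := by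
    filter_upwards [ball_mem_nhds (0 : ℂ) h0, hDev] with x hx hDx
    have a1 := hH.differentiableAt (isOpen_ball.mem_nhds hx)
    have a2 := hDd.differentiableAt (isOpen_ball.mem_nhds (ball_subset_ball h1 hx))
    exact a1.div (a2.pow 2) (pow_ne_zero 2 hDx)
  have hlt : ∀ᶠ x in 𝓝 (0 : ℂ), x ≠ 0 → ‖E x‖ < ‖E 0‖ := by
    filter_upwards [ball_mem_nhds (0 : ℂ) h0, hDev, hstr] with x hx hDx hsx hx0
    have hs := hsx hx0
    have hm := hmax x hx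
    have hid := ident (P 0) (P x)
    have hDp : 0 < ‖D x‖ := norm_pos_iff.mpr hDx
    have hF1 : ‖F x‖ < 1 := by simpa using hFm (ball_subset_ball h1 hx)
    have hFp : 0 < 1 - ‖F x‖ ^ 2 := by nlinarith [norm_nonneg (F x)]
    have hHp : 0 < ‖H 0‖ := norm_pos_iff.mpr hH0
    have hEx : ‖E x‖ = ‖H x‖ / ‖D x‖ ^ 2 := by rw [hE]; simp only; rw [norm_div, norm_pow]
    have hE0 : ‖E 0‖ = ‖H 0‖ / (1 + ‖P 0‖ ^ 2) ^ 2 := by
      rw [hE]; simp only; rw [norm_div, norm_pow, hD0n]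
    rw [hEx, hE0, div_lt_div_iff₀ (by positivity) (by positivity)]
    have hq : (0 : ℝ) < 1 + ‖P 0‖ ^ 2 := by positivity
    -- (1 - F²) * (‖H x‖ (1+p²)²) ≤ ‖H 0‖ (1-x²)(1+P²)(1+p²) < ‖H 0‖ (1-F²) ‖D‖²
    have e1 : (1 - ‖F x‖ ^ 2) * (‖H x‖ * (1 + ‖P 0‖ ^ 2) ^ 2) ≤
        ‖H 0‖ * ((1 - ‖x‖ ^ 2) * ((1 + ‖P x‖ ^ 2) * (1 + ‖P 0‖ ^ 2))) := by
      have := mul_le_mul_of_nonneg_right hm hq.le
      calc (1 - ‖F x‖ ^ 2) * (‖H x‖ * (1 + ‖P 0‖ ^ 2) ^ 2)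
          = ‖H x‖ * (1 - ‖F x‖ ^ 2) * (1 + ‖P 0‖ ^ 2) * (1 + ‖P 0‖ ^ 2) := by ring
        _ ≤ ‖H 0‖ * (1 - ‖x‖ ^ 2) * (1 + ‖P x‖ ^ 2) * (1 + ‖P 0‖ ^ 2) := this
        _ = _ := by ring
    rw [hid] at e1
    have e2 : ‖H 0‖ * ((1 - ‖x‖ ^ 2) * (‖1 + (starRingEnd ℂ) (P 0) * P x‖ ^ 2 + ‖P x - P 0‖ ^ 2)) <
        ‖H 0‖ * ((1 - ‖F x‖ ^ 2) * ‖D x‖ ^ 2) := mul_lt_mul_of_pos_left hs hHp
    have e3 : (1 - ‖F x‖ ^ 2) * (‖H x‖ * (1 + ‖P 0‖ ^ 2) ^ 2) <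
        (1 - ‖F x‖ ^ 2) * (‖H 0‖ * ‖D x‖ ^ 2) := by
      calc _ ≤ _ := e1
        _ < _ := e2
        _ = _ := by ring
    exact lt_of_mul_lt_mul_left e3 hFp.le
  have hlm : IsLocalMax (norm ∘ E) 0 := by
    filter_upwards [hlt] with x hx
    by_cases hx0 : x = 0
    · rw [hx0]
    · exact (hx hx0).le
  have hev := norm_eventually_eq_of_isLocalMax hEd hlm
  have hfin : ∀ᶠ x in 𝓝[≠] (0 : ℂ), False := by
    filter_upwards [mem_nhdsWithin_of_mem_nhds hev, mem_nhdsWithin_of_mem_nhds hlt, self_mem_nhdsWithin] with x h1 h2 h3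
    have := h2 h3
    rw [h1] at this
    exact lt_irrefl _ this
  exact (hfin.exists).elim fun _ h => h

/-- the strict inequality near `0`: generic case. -/
theorem strict1 (F P : ℂ → ℂ) (hF : DifferentiableOn ℂ F (ball 0 1)) (hF0 : F 0 = 0)
    (hP : DifferentiableOn ℂ P (ball 0 1))
    (hAB : ‖deriv F 0‖ ^ 2 + ‖deriv P 0‖ ^ 2 / (1 + ‖P 0‖ ^ 2) ^ 2 < 1) :
    ∀ᶠ x in 𝓝 (0 : ℂ), x ≠ 0 → (1 - ‖x‖ ^ 2) *
      (‖1 + (starRingEnd ℂ) (P 0) * P x‖ ^ 2 + ‖P x - P 0‖ ^ 2) <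
      (1 - ‖F x‖ ^ 2) * ‖1 + (starRingEnd ℂ) (P 0) * P x‖ ^ 2 := by
  have hU0 : (0 : ℂ) ∈ ball (0 : ℂ) 1 := mem_ball_self one_pos
  have hUn : ball (0 : ℂ) 1 ∈ 𝓝 (0 : ℂ) := isOpen_ball.mem_nhds hU0
  have hk : ContinuousAt (dslope F 0) 0 := continuousAt_dslope_same.mpr (hF.differentiableAt hUn)
  have hl : ContinuousAt (dslope P 0) 0 := continuousAt_dslope_same.mpr (hP.differentiableAt hUn)
  have hPc : ContinuousAt P 0 := (hP.differentiableAt hUn).continuousAt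
  have hDc : ContinuousAt (fun x => 1 + (starRingEnd ℂ) (P 0) * P x) 0 :=
    continuousAt_const.add (continuousAt_const.mul hPc)
  have hD0 : (1 + (starRingEnd ℂ) (P 0) * P 0) = ((1 + ‖P 0‖ ^ 2 : ℝ) : ℂ) := by
    rw [mul_comm, Complex.mul_conj, Complex.normSq_eq_norm_sq]
    push_cast
    ring
  have hD0n : ‖1 + (starRingEnd ℂ) (P 0) * P 0‖ = 1 + ‖P 0‖ ^ 2 := by
    rw [hD0, Complex.norm_real, Real.norm_eq_abs, abs_of_nonneg]
    positivity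
  -- A ‖D‖² + ‖l‖² < ‖D‖² near 0
  have hc1 : ContinuousAt (fun x => ‖dslope F 0 x‖ ^ 2 * ‖1 + (starRingEnd ℂ) (P 0) * P x‖ ^ 2 + ‖dslope P 0 x‖ ^ 2) 0 :=
    ((hk.norm.pow 2).mul (hDc.norm.pow 2)).add (hl.norm.pow 2)
  have hc2 : ContinuousAt (fun x => ‖1 + (starRingEnd ℂ) (P 0) * P x‖ ^ 2) 0 := hDc.norm.pow 2
  have hlt0 : ‖dslope F 0 0‖ ^ 2 * ‖1 + (starRingEnd ℂ) (P 0) * P 0‖ ^ 2 + ‖dslope P 0 0‖ ^ 2 <
      ‖1 + (starRingEnd ℂ) (P 0) * P 0‖ ^ 2 := by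
    rw [hD0n, dslope_same, dslope_same]
    have hq : (0 : ℝ) < (1 + ‖P 0‖ ^ 2) ^ 2 := by positivity
    have := mul_lt_mul_of_pos_right hAB hq
    rw [add_mul, div_mul_cancel₀ _ hq.ne', one_mul] at this
    exact this
  have hev := hc1.eventually_lt hc2 hlt0
  filter_upwards [hev, hUn] with x hx hxU hx0
  have hx1 : ‖x‖ < 1 := by simpa using hxU
  have hxp : 0 < ‖x‖ := norm_pos_iff.mpr hx0
  have hFx : ‖F x‖ = ‖x‖ * ‖dslope F 0 x‖ := by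
    have h1 : F x = x * dslope F 0 x := by
      have := sub_smul_dslope F 0 x
      rw [sub_zero, hF0, sub_zero, smul_eq_mul] at this
      exact this.symm
    rw [← norm_mul, ← h1]
  have hPx : ‖P x - P 0‖ = ‖x‖ * ‖dslope P 0 x‖ := by
    have := sub_smul_dslope P 0 x
    rw [sub_zero, smul_eq_mul] at this
    rw [← norm_mul, this]
  rw [hFx, hPx]
  set r := ‖x‖ ^ 2 with hr
  set A := ‖dslope F 0 x‖ ^ 2
  set L := ‖dslope P 0 x‖ ^ 2 with hL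
  set G := ‖1 + (starRingEnd ℂ) (P 0) * P x‖ ^ 2
  have hr0 : 0 < r := by positivity
  have hL0 : 0 ≤ L := by positivity
  have e1 : (‖x‖ * ‖dslope P 0 x‖) ^ 2 = r * L := by rw [mul_pow]
  have e2 : (‖x‖ * ‖dslope F 0 x‖) ^ 2 = r * A := by rw [mul_pow]
  rw [e1, e2]
  have h3 : A * G + L < G := hx
  nlinarith [mul_pos hr0 (sub_pos.mpr h3), mul_nonneg (mul_nonneg hr0.le hr0.le) hL0]

/-- the strict inequality near `0`: the case `P 0 = 0`, `F' 0 = 0`, `2 ‖H 0‖ > 1`. -/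
theorem strict2 (F P H : ℂ → ℂ) (ρ : ℝ) (h0 : 0 < ρ) (hF : DifferentiableOn ℂ F (ball 0 1)) (hF0 : F 0 = 0)
    (hF1 : deriv F 0 = 0) (hP : DifferentiableOn ℂ P (ball 0 1)) (hPm : MapsTo P (ball 0 1) (closedBall 0 1))
    (hP0 : P 0 = 0) (hHc : ContinuousAt H 0) (hH0 : 1 < 2 * ‖H 0‖)
    (hPH : ∀ x ∈ ball (0 : ℂ) ρ, ‖P x‖ = ‖H x‖ * ‖deriv F x‖) :
    ∀ᶠ x in 𝓝 (0 : ℂ), x ≠ 0 → (1 - ‖x‖ ^ 2) *
      (‖1 + (starRingEnd ℂ) (P 0) * P x‖ ^ 2 + ‖P x - P 0‖ ^ 2) <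
      (1 - ‖F x‖ ^ 2) * ‖1 + (starRingEnd ℂ) (P 0) * P x‖ ^ 2 := by
  have hU0 : (0 : ℂ) ∈ ball (0 : ℂ) 1 := mem_ball_self one_pos
  have hUn : ball (0 : ℂ) 1 ∈ 𝓝 (0 : ℂ) := isOpen_ball.mem_nhds hU0
  set k := dslope F 0 with hk
  have hkd : DifferentiableOn ℂ k (ball 0 1) := (Complex.differentiableOn_dslope hUn).mpr hF
  set k2 := dslope k 0 with hk2
  have hk2d : DifferentiableOn ℂ k2 (ball 0 1) := (Complex.differentiableOn_dslope hUn).mpr hkd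
  have hk0 : k 0 = 0 := by rw [hk, dslope_same, hF1]
  have hFx : ∀ x, F x = x ^ 2 * k2 x := by
    intro x
    have a1 := sub_smul_dslope F 0 x
    have a2 := sub_smul_dslope k 0 x
    rw [sub_zero, hF0, sub_zero, smul_eq_mul] at a1
    rw [sub_zero, hk0, sub_zero, smul_eq_mul] at a2
    rw [← a1, ← hk, ← a2, ← hk2]
    ring
  have hFd : ∀ x ∈ ball (0 : ℂ) 1, deriv F x = x * (2 * k2 x + x * deriv k2 x) := by
    intro x hx
    have hkx : HasDerivAt k2 (deriv k2 x) x := (hk2d.differentiableAt (isOpen_ball.mem_nhds hx)).hasDerivAt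
    have h1 : HasDerivAt (fun y : ℂ => y ^ 2 * k2 y) (2 * x * k2 x + x ^ 2 * deriv k2 x) x := by
      have := (hasDerivAt_pow 2 x).mul hkx
      have h3 : HasDerivAt (fun y : ℂ => y ^ 2 * k2 y) _ x := this
      refine h3.congr_deriv ?_
      norm_num
    have h2 : F = fun y : ℂ => y ^ 2 * k2 y := funext hFx
    rw [h2, h1.deriv]
    ring
  -- `‖P' 0‖ = 2 ‖H 0‖ ‖k2 0‖`
  have hlim1 : Tendsto (fun x => ‖slope P 0 x‖) (𝓝[≠] (0 : ℂ)) (𝓝 ‖deriv P 0‖) :=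
    (hasDerivAt_iff_tendsto_slope.1 (hP.differentiableAt hUn).hasDerivAt).norm
  have hk2c : ContinuousAt k2 0 := (hk2d.differentiableAt hUn).continuousAt
  have hk2dc : ContinuousAt (deriv k2) 0 := ((hk2d.analyticAt hUn).deriv).continuousAt
  have hlim2 : Tendsto (fun x => ‖H x‖ * ‖2 * k2 x + x * deriv k2 x‖) (𝓝[≠] (0 : ℂ)) (𝓝 (‖H 0‖ * ‖2 * k2 0 + 0 * deriv k2 0‖)) := by
    have : ContinuousAt (fun x => ‖H x‖ * ‖2 * k2 x + x * deriv k2 x‖) 0 :=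
      hHc.norm.mul ((continuousAt_const.mul hk2c).add (continuousAt_id.mul hk2dc)).norm
    exact this.tendsto.mono_left nhdsWithin_le_nhds
  have heq : ‖deriv P 0‖ = ‖H 0‖ * ‖2 * k2 0 + 0 * deriv k2 0‖ := by
    refine tendsto_nhds_unique_of_eventuallyEq hlim1 hlim2 ?_
    filter_upwards [mem_nhdsWithin_of_mem_nhds hUn, mem_nhdsWithin_of_mem_nhds (ball_mem_nhds (0 : ℂ) h0), self_mem_nhdsWithin] with x hx hxρ hx0
    have hx0' : x ≠ 0 := hx0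
    have hxp : 0 < ‖x‖ := norm_pos_iff.mpr hx0'
    rw [slope_def_field, hP0, sub_zero, sub_zero, norm_div, hPH x hxρ, hFd x hx, norm_mul]
    field_simp
  have hk2lt : ‖k2 0‖ < 1 := by
    rw [zero_mul, add_zero, norm_mul, Complex.norm_ofNat] at heq
    by_contra hcon
    push Not at hcon
    have hsp := sp P hP hPm
    rw [hP0, norm_zero] at hsp
    have : (2 * ‖H 0‖) * ‖k2 0‖ ≤ 1 := by
      have h2 : ‖deriv P 0‖ = 2 * ‖H 0‖ * ‖k2 0‖ := by rw [heq]; ring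
      rw [← h2]
      linarith
    nlinarith
  have hev : ∀ᶠ x in 𝓝 (0 : ℂ), ‖k2 x‖ < 1 := hk2c.norm.eventually_lt continuousAt_const hk2lt
  filter_upwards [hev, hUn] with x hx hxU hx0
  have hx1 : ‖x‖ < 1 := by simpa using hxU
  have hxp : 0 < ‖x‖ := norm_pos_iff.mpr hx0
  have hPx : ‖P x‖ ≤ ‖x‖ := norm_le_norm_of_mapsTo_ball hP hPm hP0 hx1
  rw [hP0]
  simp only [map_zero, zero_mul, add_zero, norm_one, one_pow, mul_one, sub_zero]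
  rw [hFx x, norm_mul, norm_pow]
  have h1 : ‖k2 x‖ ^ 2 < 1 := by nlinarith [norm_nonneg (k2 x)]
  have h2 : ‖P x‖ ^ 2 ≤ ‖x‖ ^ 2 := by nlinarith [norm_nonneg (P x)]
  have h3 : (‖x‖ ^ 2 * ‖k2 x‖) ^ 2 = (‖x‖ ^ 2) ^ 2 * ‖k2 x‖ ^ 2 := by ring
  rw [h3]
  set r := ‖x‖ ^ 2 with hr
  have hr0 : 0 < r := by positivity
  have hr1 : r < 1 := by nlinarith
  have h4 : (1 - r) * (1 + ‖P x‖ ^ 2) ≤ (1 - r) * (1 + r) :=
    mul_le_mul_of_nonneg_left (by linarith) (by linarith)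
  have h5 : r ^ 2 * ‖k2 x‖ ^ 2 < r ^ 2 * 1 := mul_lt_mul_of_pos_left h1 (by positivity)
  nlinarith

/-- THE PURE LEMMA. -/
theorem main (F P H : ℂ → ℂ) (ρ : ℝ) (h0 : 0 < ρ) (h1 : ρ ≤ 1) (hF : DifferentiableOn ℂ F (ball 0 1))
    (hFm : MapsTo F (ball 0 1) (ball 0 1)) (hF0 : F 0 = 0) (hP : DifferentiableOn ℂ P (ball 0 1))
    (hPm : MapsTo P (ball 0 1) (closedBall 0 1)) (hH : DifferentiableOn ℂ H (ball 0 ρ))
    (hPH : ∀ x ∈ ball (0 : ℂ) ρ, ‖P x‖ = ‖H x‖ * ‖deriv F x‖)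
    (hbig : 1 + ‖P 0‖ ^ 2 < 2 * ‖H 0‖)
    (hmax : ∀ x ∈ ball (0 : ℂ) ρ, ‖H x‖ * (1 - ‖F x‖ ^ 2) * (1 + ‖P 0‖ ^ 2) ≤
      ‖H 0‖ * (1 - ‖x‖ ^ 2) * (1 + ‖P x‖ ^ 2)) : False := by
  have hH0 : H 0 ≠ 0 := by
    intro h
    rw [h, norm_zero] at hbig
    nlinarith [sq_nonneg ‖P 0‖]
  refine core F P H ρ h0 h1 hFm hP hH hH0 hmax ?_
  have hsp := sp P hP hPm
  have h00 : (0 : ℂ) ∈ ball (0 : ℂ) 1 := mem_ball_self one_pos
  have hP01 : ‖P 0‖ ≤ 1 := by simpa using hPm h00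
  have hPH0 := hPH 0 (mem_ball_self h0)
  have hq : (0 : ℝ) < 1 + ‖P 0‖ ^ 2 := by positivity
  have hB : ‖deriv P 0‖ ^ 2 / (1 + ‖P 0‖ ^ 2) ^ 2 ≤ (1 - ‖P 0‖ ^ 2) ^ 2 / (1 + ‖P 0‖ ^ 2) ^ 2 := by
    apply div_le_div_of_nonneg_right _ (by positivity)
    exact pow_le_pow_left₀ (norm_nonneg _) hsp 2
  by_cases hd : deriv F 0 = 0
  · have hP0 : P 0 = 0 := by
      rw [hd, norm_zero, mul_zero] at hPH0
      exact norm_eq_zero.mp hPH0
    refine strict2 F P H ρ h0 hF hF0 hd hP hPm hP0 ?_ ?_ hPH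
    · exact (hH.differentiableAt (ball_mem_nhds _ h0)).continuousAt
    · rw [hP0, norm_zero] at hbig
      simpa using hbig
  · apply strict1 F P hF hF0 hP
    have hFp : 0 < ‖deriv F 0‖ := norm_pos_iff.mpr hd
    -- `h (1+p²) < 2 p`
    have h2 : ‖deriv F 0‖ * (1 + ‖P 0‖ ^ 2) < 2 * ‖P 0‖ := by
      have h6 := mul_lt_mul_of_pos_right hbig hFp
      calc ‖deriv F 0‖ * (1 + ‖P 0‖ ^ 2) = (1 + ‖P 0‖ ^ 2) * ‖deriv F 0‖ := mul_comm _ _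
        _ < 2 * ‖H 0‖ * ‖deriv F 0‖ := h6
        _ = 2 * ‖P 0‖ := by rw [hPH0]; ring
    have h3 : ‖deriv F 0‖ ^ 2 < 4 * ‖P 0‖ ^ 2 / (1 + ‖P 0‖ ^ 2) ^ 2 := by
      rw [lt_div_iff₀ (by positivity)]
      have h4 : (‖deriv F 0‖ * (1 + ‖P 0‖ ^ 2)) ^ 2 < (2 * ‖P 0‖) ^ 2 :=
        pow_lt_pow_left₀ h2 (by positivity) two_ne_zero
      nlinarith
    have h5 : 4 * ‖P 0‖ ^ 2 / (1 + ‖P 0‖ ^ 2) ^ 2 + (1 - ‖P 0‖ ^ 2) ^ 2 / (1 + ‖P 0‖ ^ 2) ^ 2 = 1 := by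
      rw [← add_div, div_eq_one_iff_eq (by positivity)]
      ring
    linarith

end LO2P
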