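import Pool.Agent.helper63.RT.SpecH
import Pool.Agent.helper80.RT.LO2P

/-!
# LO2 (helper80): THE LOSS OF ONE STEP WITH EXPONENT TWO, for every `RT.OS`

`N = ∏ (bl W a c) ^ (m c)`, `h = hdf f W Ω a`: `2 N ≤ h (1 + N²)`. So `1 - h ≤ (1 - N)²/(1 + N²) ≤ (1 - N)²`.
-/

set_option autoImplicit false

open Complex Metric Set Filter Topology MeasureTheory
open HY (UD T S hd UN RM)

noncomputable section

namespace RT

/-- LO2: the loss of one step with exponent two. -/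
def LO2_stmt : Prop := ∀ (s : ℝ) (W Ω : Set ℂ) (f : ℂ → ℂ) (C Vl : Finset ℂ) (m : ℂ → ℕ), OS s W Ω f C Vl m → ∀ a ∈ W,
  2 * ∏ c ∈ C, (bl W a c) ^ (m c) ≤ hdf f W Ω a * (1 + (∏ c ∈ C, (bl W a c) ^ (m c)) ^ 2)

theorem LO2_bl01 (hTBM : TBM_stmt) (hTDF : TDF_stmt) {s : ℝ} {W : Set ℂ} (s0 : 0 < s) (tw : TD s W)
    {a : ℂ} (ha : a ∈ W) (c : ℂ) : 0 ≤ bl W a c ∧ bl W a c ≤ 1 := by
  obtain ⟨-, -, -, -, hin, hout, -⟩ := hTDF s W tw a ha
  by_cases hc : c ∈ W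
  · obtain ⟨-, h0, h1, -⟩ := hTBM s W s0 tw a ha c hc
    exact ⟨h0, h1.trans (hin c hc).2.1.le⟩
  · rw [(hout c hc).2]
    exact ⟨zero_le_one, le_refl _⟩

/-- the Blaschke product of all critical points -/
theorem LO2_P (hTBL : TBL_stmt) {s : ℝ} {W : Set ℂ} (s0 : 0 < s) (tw : TD s W) {a : ℂ} (ha : a ∈ W)
    (C : Finset ℂ) (m : ℂ → ℕ) : ∃ P : ℂ → ℂ, DifferentiableOn ℂ P UD ∧ MapsTo P UD (closedBall 0 1) ∧
      ∀ z ∈ UD, ‖P z‖ = ∏ c ∈ C, (bl W (rm W a z) c) ^ (m c) := by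
  have hB := fun c => hTBL s W s0 tw a ha c
  choose B hBd hBn hBl using hB
  refine ⟨fun z => ∏ c ∈ C, (B c z) ^ (m c), DifferentiableOn.fun_finsetProd (fun c _ => (hBd c).pow _), ?_, ?_⟩
  · intro z hz
    rw [mem_closedBall_zero_iff, norm_prod]
    refine Finset.prod_le_one (fun c _ => norm_nonneg _) fun c _ => ?_
    rw [norm_pow]
    exact pow_le_one₀ (norm_nonneg _) (hBn c z hz).2
  · intro z hz
    rw [norm_prod]
    refine Finset.prod_congr rfl fun c _ => ?_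
    rw [norm_pow, (hBn c z hz).1]

theorem LO2 (hHGC : HGC_stmt) (hHLF : HLF_stmt) (hHBD : HBD_stmt) (hTBM : TBM_stmt) (hTBL : TBL_stmt)
    (hTDF : TDF_stmt) (hTSP : TSP_stmt) : LO2_stmt := by
  intro s W Ω f C Vl m hOS a ha
  by_contra hcon
  push Not at hcon
  have hU0 : (0 : ℂ) ∈ UD := mem_ball_self one_pos
  have hUo : IsOpen UD := isOpen_ball
  obtain ⟨g, hgc, hg, -⟩ := hHGC s W Ω f C Vl m hOS
  have hsp := fun b hb => hTSP s W Ω f hOS.tw hOS.tO hOS.dif hOS.map b hb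
  set N : ℂ → ℝ := fun b => ∏ c ∈ C, (bl W b c) ^ (m c) with hNdef
  have hN : ∀ b ∈ W, 0 ≤ N b ∧ N b ≤ 1 := by
    intro b hb
    constructor
    · exact Finset.prod_nonneg fun c _ => pow_nonneg (LO2_bl01 hTBM hTDF hOS.s0 hOS.tw hb c).1 _
    · exact Finset.prod_le_one (fun c _ => pow_nonneg (LO2_bl01 hTBM hTDF hOS.s0 hOS.tw hb c).1 _)
        (fun c _ => pow_le_one₀ (LO2_bl01 hTBM hTDF hOS.s0 hOS.tw hb c).1
          (LO2_bl01 hTBM hTDF hOS.s0 hOS.tw hb c).2)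
  have hval : ∀ b ∈ W, rm W b 0 = b := fun b hb => (hTDF s W hOS.tw b hb).1.val
  have hmapn : ∀ b ∈ W, map (rm W b) (𝓝 0) = 𝓝 b := by
    intro b hb
    obtain ⟨hUC, -⟩ := hTDF s W hOS.tw b hb
    have hsd : HasStrictDerivAt (rm W b) (deriv (rm W b) 0) 0 := by
      have : AnalyticAt ℂ (rm W b) 0 := hUC.dif.analyticAt (hUo.mem_nhds hU0)
      exact this.hasStrictDerivAt
    have := hsd.map_nhds_eq (hUC.der 0 hU0)
    rwa [hval b hb] at this
  -- continuity of `N`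
  have hNc : ContinuousOn N W := by
    intro b hb
    apply ContinuousAt.continuousWithinAt
    obtain ⟨P, hPd, hPm, hPn⟩ := LO2_P hTBL hOS.s0 hOS.tw hb C m
    show Tendsto N (𝓝 b) (𝓝 (N b))
    rw [← hmapn b hb, tendsto_map'_iff]
    have hPc : ContinuousAt P 0 := (hPd.differentiableAt (hUo.mem_nhds hU0)).continuousAt
    have h1 : Tendsto (fun x => ‖P x‖) (𝓝 0) (𝓝 ‖P 0‖) := hPc.norm
    have h2 : ‖P 0‖ = N b := by
      rw [hPn 0 hU0, hval b hb]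
    rw [h2] at h1
    refine h1.congr' ?_
    filter_upwards [hUo.mem_nhds hU0] with x hx
    exact hPn x hx
  -- `G = 2 g/(1+N²)`
  set G : ℂ → ℝ := fun b => 2 * g b / (1 + N b ^ 2) with hG
  have hGc : ContinuousOn G W :=
    (continuousOn_const.mul hgc).div (continuousOn_const.add (hNc.pow 2)) (fun b _ => by positivity)
  have hh0 : ∀ b ∈ W, 0 ≤ hdf f W Ω b := fun b hb => (hsp b hb).2.1
  have hGh : ∀ b ∈ W, 2 * N b = G b * hdf f W Ω b * (1 + N b ^ 2) := by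
    intro b hb
    have h1 : N b = g b * hdf f W Ω b := (hg b hb).2
    have hq : (0 : ℝ) < 1 + N b ^ 2 := by positivity
    rw [hG]
    simp only
    field_simp
    linarith
  have hNa : hdf f W Ω a * (1 + N a ^ 2) < 2 * N a := hcon
  have hNpos : 0 < N a := by
    have : 0 ≤ hdf f W Ω a * (1 + N a ^ 2) := mul_nonneg (hh0 a ha) (by positivity)
    linarith
  have hhpos : 0 < hdf f W Ω a := by
    rcases (hh0 a ha).lt_or_eq with h | h
    · exact h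
    · have := hGh a ha
      rw [← h] at this
      nlinarith
  have hqa : (0 : ℝ) < 1 + N a ^ 2 := by positivity
  obtain ⟨r, hr1, hr2⟩ := exists_between ((div_lt_one (by linarith : (0 : ℝ) < 2 * N a)).mpr hNa)
  have hr0 : 0 < r := lt_trans (div_pos (mul_pos hhpos hqa) (by linarith)) hr1
  have hr3 : hdf f W Ω a * (1 + N a ^ 2) < r * (2 * N a) := by
    rwa [div_lt_iff₀ (by linarith)] at hr1
  obtain ⟨K, hKΩ, hKc, hK⟩ := hHBD s W Ω f C Vl m hOS r hr2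
  have hK' : IsCompact {z | z ∈ W ∧ f z ∈ K} := hOS.pro K hKΩ hKc
  -- `2 N ≤ 1 + N²`
  have hphi : ∀ b, 2 * N b ≤ 1 + N b ^ 2 := fun b => by nlinarith [sq_nonneg (N b - 1)]
  have haK : a ∈ {z | z ∈ W ∧ f z ∈ K} := by
    refine ⟨ha, ?_⟩
    by_contra hn
    have h1 := hK a ha hn
    have h2 : r * (2 * N a) ≤ r * (1 + N a ^ 2) := mul_le_mul_of_nonneg_left (hphi a) hr0.le
    have h3 : r * (1 + N a ^ 2) ≤ hdf f W Ω a * (1 + N a ^ 2) := mul_le_mul_of_nonneg_right h1 hqa.le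
    linarith
  obtain ⟨b, hbK, hb⟩ := hK'.exists_isMaxOn ⟨a, haK⟩ (hGc.mono (fun z hz => hz.1))
  have hab : G a ≤ G b := hb haK
  have hgr : 1 < G a * r := by
    have h1 : hdf f W Ω a * (1 + N a ^ 2) < r * (G a * hdf f W Ω a * (1 + N a ^ 2)) := by
      rw [← hGh a ha]; exact hr3
    have h2 : 1 * (hdf f W Ω a * (1 + N a ^ 2)) < (G a * r) * (hdf f W Ω a * (1 + N a ^ 2)) := by linarith
    exact lt_of_mul_lt_mul_right h2 (mul_pos hhpos hqa).le
  have hGapos : 0 < G a := by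
    by_contra hn
    push Not at hn
    have := mul_nonpos_of_nonpos_of_nonneg hn hr0.le
    linarith
  have hGa1 : 1 < G a := by
    have h2 : G a * r < G a * 1 := mul_lt_mul_of_pos_left hr2 hGapos
    linarith
  have hmb : ∀ b' ∈ W, G b' ≤ G b := by
    intro b' hb'
    by_cases hf : f b' ∈ K
    · exact hb ⟨hb', hf⟩
    · have h1 := hK b' hb' hf
      have h2 := hGh b' hb'
      have hq : (0 : ℝ) < 1 + N b' ^ 2 := by positivity
      have hG0 : 0 ≤ G b' := div_nonneg (mul_nonneg zero_le_two (hg b' hb').1) hq.le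
      have h4 : G b' * r ≤ G b' * hdf f W Ω b' := mul_le_mul_of_nonneg_left h1 hG0
      have h5 : G b' * hdf f W Ω b' ≤ 1 := by
        have h6 : G b' * hdf f W Ω b' * (1 + N b' ^ 2) ≤ 1 * (1 + N b' ^ 2) := by
          rw [← h2, one_mul]; exact hphi b'
        exact le_of_mul_le_mul_right h6 hq
      have h7 : G b' * r < G a * r := by linarith
      exact (lt_of_mul_lt_mul_right h7 hr0.le).le.trans hab
  have hbW : b ∈ W := hbK.1
  have hGb : 1 < G b := lt_of_lt_of_le hGa1 hab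
  -- the local formula at `b`
  obtain ⟨F, H, ρ, h1, h1', hFd, hFm, hF0, hHd, h3, h5, h4⟩ := hHLF s W Ω f C Vl m hOS b hbW
  obtain ⟨P, hPd, hPm, hPn⟩ := LO2_P hTBL hOS.s0 hOS.tw hbW C m
  have hPN : ∀ x ∈ UD, ‖P x‖ = N (rm W b x) := fun x hx => hPn x hx
  have hP0 : ‖P 0‖ = N b := by rw [hPN 0 hU0, hval b hbW]
  have hPH : ∀ x ∈ ball (0 : ℂ) ρ, ‖P x‖ = ‖H x‖ * ‖deriv F x‖ := by
    intro x hx
    rw [hPn x (ball_subset_ball h1' hx)]
    exact h3 x hx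
  have hrmW : ∀ x ∈ UD, rm W b x ∈ W := fun x hx => ((hTDF s W hOS.tw b hbW).2.2.2.2.2.2 x hx).1
  -- for `x ≠ 0`: `g (rm x) (1-‖x‖²) = ‖H x‖ (1-‖F x‖²)`
  have hform : ∀ x ∈ ball (0 : ℂ) ρ, x ≠ 0 → g (rm W b x) * (1 - ‖x‖ ^ 2) = ‖H x‖ * (1 - ‖F x‖ ^ 2) := by
    intro x hx hx0
    have hxU : x ∈ UD := ball_subset_ball h1' hx
    have hx1 : ‖x‖ < 1 := by simpa [UD] using hxU
    have hF1 : ‖F x‖ < 1 := by simpa [UD] using hFm hxU
    have k1 : N (rm W b x) = g (rm W b x) * hdf f W Ω (rm W b x) := (hg _ (hrmW x hxU)).2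
    have k3 : N (rm W b x) = ‖H x‖ * ‖deriv F x‖ := h3 x hx
    have k4 := h4 x hxU
    have k5 : 0 < ‖deriv F x‖ := norm_pos_iff.2 (h5 x hx hx0)
    have p1 : 0 < 1 - ‖x‖ ^ 2 := by nlinarith [norm_nonneg x]
    have p2 : 0 < 1 - ‖F x‖ ^ 2 := by nlinarith [norm_nonneg (F x)]
    rw [k1] at k3
    have e1 : ‖deriv F x‖ * (g (rm W b x) * (1 - ‖x‖ ^ 2)) = ‖deriv F x‖ * (‖H x‖ * (1 - ‖F x‖ ^ 2)) := by
      linear_combination (1 - ‖F x‖ ^ 2) * k3 - g (rm W b x) * k4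
    exact mul_left_cancel₀ k5.ne' e1
  -- the value of `g` at `b`
  have hHc : ContinuousAt H 0 := (hHd.differentiableAt (ball_mem_nhds _ h1)).continuousAt
  have hFc : ContinuousAt F 0 := (hFd.differentiableAt (hUo.mem_nhds hU0)).continuousAt
  have hrmt : Tendsto (rm W b) (𝓝 0) (𝓝 b) := by
    rw [← hmapn b hbW]
    exact tendsto_map
  have hgb : g b = ‖H 0‖ := by
    have t1 : Tendsto (fun x => g (rm W b x) * (1 - ‖x‖ ^ 2)) (𝓝 0) (𝓝 (g b * (1 - ‖(0 : ℂ)‖ ^ 2))) := by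
      have hWn : W ∈ 𝓝 b := by
        rw [← hmapn b hbW]
        exact mem_map.mpr (mem_of_superset (hUo.mem_nhds hU0) hrmW)
      have e1 : Tendsto (fun x => g (rm W b x)) (𝓝 0) (𝓝 (g b)) :=
        ((hgc b hbW).continuousAt hWn).tendsto.comp hrmt
      have e2 : ContinuousAt (fun x : ℂ => 1 - ‖x‖ ^ 2) 0 := continuousAt_const.sub (continuousAt_id.norm.pow 2)
      exact e1.mul e2.tendsto
    have t2 : Tendsto (fun x => ‖H x‖ * (1 - ‖F x‖ ^ 2)) (𝓝 0) (𝓝 (‖H 0‖ * (1 - ‖F 0‖ ^ 2))) := by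
      have e2 : ContinuousAt (fun x => ‖H x‖ * (1 - ‖F x‖ ^ 2)) 0 :=
        hHc.norm.mul (continuousAt_const.sub (hFc.norm.pow 2))
      exact e2.tendsto
    have := tendsto_nhds_unique_of_eventuallyEq (t1.mono_left nhdsWithin_le_nhds) (t2.mono_left nhdsWithin_le_nhds)
      (l := 𝓝[≠] (0 : ℂ)) (by
        filter_upwards [mem_nhdsWithin_of_mem_nhds (ball_mem_nhds (0 : ℂ) h1), self_mem_nhdsWithin] with x hx hx0
        exact hform x hx hx0)
    rw [hF0] at this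
    simpa using this
  refine LO2P.main F P H ρ h1 h1' hFd hFm hF0 hPd hPm hHd hPH ?_ ?_
  · rw [hP0, ← hgb]
    have hq : (0 : ℝ) < 1 + N b ^ 2 := by positivity
    have : 1 < 2 * g b / (1 + N b ^ 2) := hGb
    rw [lt_div_iff₀ hq, one_mul] at this
    exact this
  · intro x hx
    by_cases hx0 : x = 0
    · rw [hx0, hF0]
    · have hxU : x ∈ UD := ball_subset_ball h1' hx
      have hx1 : ‖x‖ < 1 := by simpa [UD] using hxU
      have p1 : 0 < 1 - ‖x‖ ^ 2 := by nlinarith [norm_nonneg x]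
      have hm : 2 * g (rm W b x) / (1 + N (rm W b x) ^ 2) ≤ 2 * g b / (1 + N b ^ 2) := hmb _ (hrmW x hxU)
      rw [div_le_div_iff₀ (by positivity) (by positivity), hgb, ← hPN x hxU, ← hP0] at hm
      rw [← hform x hx hx0]
      have := mul_le_mul_of_nonneg_right hm p1.le
      nlinarith
end RT
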