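import Pool.Agent.helper80.RT.LO2
import Pool.Agent.helper63.RS.All

/-!
# LOT2 (helper80): the loss of one step, power two, for `RT.OS` and for `RS.Ok` (`RS.Sys`)

`-log hdf ≤ K ∑ (1 - bl W a c)²` if all `1 - bl W a c ≤ 1/2`.
-/

set_option autoImplicit false

open Complex Metric Set Filter Topology MeasureTheory
open HY (UD T S hd UN RM)

noncomputable section

namespace RT

/-- numbers: `N = ∏ b_c^k_c`, `k_c ≤ D`, `b_c ∈ [1/2,1]`: `N ≥ 2^(-D n)` and `1 - N ≤ D ∑ (1 - b_c)`. -/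
theorem LO2_num (C : Finset ℂ) (b : ℂ → ℝ) (k : ℂ → ℕ) (D : ℕ) (hk : ∀ c ∈ C, k c ≤ D)
    (hb : ∀ c ∈ C, 1 / 2 ≤ b c ∧ b c ≤ 1) :
    (1 / 2 : ℝ) ^ (D * C.card) ≤ ∏ c ∈ C, (b c) ^ (k c) ∧ ∏ c ∈ C, (b c) ^ (k c) ≤ 1 ∧
      1 - ∏ c ∈ C, (b c) ^ (k c) ≤ D * ∑ c ∈ C, (1 - b c) := by
  classical
  induction C using Finset.induction_on with
  | empty => simp
  | insert a C ha ih =>
    obtain ⟨i1, i2, i3⟩ := ih (fun c hc => hk c (Finset.mem_insert_of_mem hc)) (fun c hc => hb c (Finset.mem_insert_of_mem hc))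
    obtain ⟨b1, b2⟩ := hb a (Finset.mem_insert_self a C)
    have hka := hk a (Finset.mem_insert_self a C)
    have hb0 : 0 ≤ b a := by linarith
    have hP0 : 0 ≤ ∏ c ∈ C, (b c) ^ (k c) := le_trans (by positivity) i1
    rw [Finset.prod_insert ha, Finset.sum_insert ha, Finset.card_insert_of_notMem ha]
    have h1 : (1 / 2 : ℝ) ^ D ≤ (b a) ^ (k a) := by
      calc (1 / 2 : ℝ) ^ D ≤ (1 / 2 : ℝ) ^ (k a) := pow_le_pow_of_le_one (by norm_num) (by norm_num) hka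
        _ ≤ (b a) ^ (k a) := pow_le_pow_left₀ (by norm_num) b1 _
    have h2 : (b a) ^ (k a) ≤ 1 := pow_le_one₀ hb0 b2
    have h3 : 1 - (b a) ^ (k a) ≤ D * (1 - b a) := by
      have h4 := one_add_mul_le_pow (show (-2 : ℝ) ≤ b a - 1 by linarith) (k a)
      have h5 : 1 + (b a - 1) = b a := by ring
      rw [h5] at h4
      have h6 : (k a : ℝ) ≤ D := by exact_mod_cast hka
      nlinarith
    refine ⟨?_, ?_, ?_⟩
    · rw [Nat.mul_add, Nat.mul_one, pow_add, mul_comm]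
      exact mul_le_mul h1 i1 (by positivity) (by positivity)
    · exact mul_le_one₀ h2 hP0 i2
    · have h7 : 1 - (b a) ^ (k a) * ∏ c ∈ C, (b c) ^ (k c) =
          (1 - (b a) ^ (k a)) + (b a) ^ (k a) * (1 - ∏ c ∈ C, (b c) ^ (k c)) := by ring
      have h8 : (b a) ^ (k a) * (1 - ∏ c ∈ C, (b c) ^ (k c)) ≤ 1 * (1 - ∏ c ∈ C, (b c) ^ (k c)) :=
        mul_le_mul_of_nonneg_right h2 (by linarith)
      rw [h7, mul_add]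
      linarith

/-- LO2E: the exponential form for an `OS`. -/
theorem LO2E (hLO2 : LO2_stmt) (hTBM : TBM_stmt) (hTDF : TDF_stmt) (s : ℝ) (W Ω : Set ℂ) (f : ℂ → ℂ) (C Vl : Finset ℂ)
    (m : ℂ → ℕ) (hOS : OS s W Ω f C Vl m) (D : ℕ) (hm : ∀ c ∈ C, m c ≤ D) (a : ℂ) (ha : a ∈ W)
    (hbl : ∀ c ∈ C, 1 - bl W a c ≤ 1 / 2) :
    Real.exp (-((D ^ 2 * C.card * 2 ^ (D * C.card)) * ∑ c ∈ C, (1 - bl W a c) ^ 2)) ≤ hdf f W Ω a := by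
  have hb : ∀ c ∈ C, 1 / 2 ≤ bl W a c ∧ bl W a c ≤ 1 := fun c hc =>
    ⟨by linarith [hbl c hc], (LO2_bl01 hTBM hTDF hOS.s0 hOS.tw ha c).2⟩
  obtain ⟨h1, h2, h3⟩ := LO2_num C (fun c => bl W a c) m D hm hb
  have h4 := hLO2 s W Ω f C Vl m hOS a ha
  set N := ∏ c ∈ C, (bl W a c) ^ (m c) with hN
  have hNpos : 0 < N := lt_of_lt_of_le (by positivity) h1
  have hq : (0 : ℝ) < 1 + N ^ 2 := by positivity
  -- `h ≥ 2N/(1+N²)`, `log ((1+N²)/(2N)) ≤ (1-N)²/(2N)`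
  have h5 : 2 * N / (1 + N ^ 2) ≤ hdf f W Ω a := by rwa [div_le_iff₀ hq]
  refine le_trans ?_ h5
  have h6 : Real.exp (-((1 - N) ^ 2 / (2 * N))) ≤ 2 * N / (1 + N ^ 2) := by
    rw [Real.exp_neg, inv_le_comm₀ (Real.exp_pos _) (by positivity), inv_div]
    have h7 := Real.add_one_le_exp ((1 - N) ^ 2 / (2 * N))
    refine le_trans (le_of_eq ?_) h7
    field_simp
    ring
  refine le_trans (Real.exp_le_exp.mpr (neg_le_neg ?_)) h6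
  have h8 : (1 - N) ^ 2 ≤ (D * ∑ c ∈ C, (1 - bl W a c)) ^ 2 :=
    pow_le_pow_left₀ (by linarith) h3 2
  have h9 : (∑ c ∈ C, (1 - bl W a c)) ^ 2 ≤ C.card * ∑ c ∈ C, (1 - bl W a c) ^ 2 := sq_sum_le_card_mul_sum_sq
  have h10 : 1 / (2 * N) ≤ 2 ^ (D * C.card) := by
    rw [div_le_iff₀ (by positivity)]
    have h11 : (2 : ℝ) ^ (D * C.card) * (1 / 2) ^ (D * C.card) = 1 := by
      rw [← mul_pow]; norm_num
    have h12 : (2 : ℝ) ^ (D * C.card) * (1 / 2) ^ (D * C.card) ≤ 2 ^ (D * C.card) * N :=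
      mul_le_mul_of_nonneg_left h1 (by positivity)
    nlinarith
  calc (1 - N) ^ 2 / (2 * N) = (1 - N) ^ 2 * (1 / (2 * N)) := by ring
    _ ≤ (D * ∑ c ∈ C, (1 - bl W a c)) ^ 2 * 2 ^ (D * C.card) :=
        mul_le_mul h8 h10 (by positivity) (by positivity)
    _ = D ^ 2 * 2 ^ (D * C.card) * (∑ c ∈ C, (1 - bl W a c)) ^ 2 := by ring
    _ ≤ D ^ 2 * 2 ^ (D * C.card) * (C.card * ∑ c ∈ C, (1 - bl W a c) ^ 2) :=
        mul_le_mul_of_nonneg_left h9 (by positivity)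
    _ = _ := by ring

/-- `1 - hdf ≤ (1 - N)²`, and `1 - N ≤ ∑ m_c (1 - bl)`, without any smallness. -/
theorem LO2L (hLO2 : LO2_stmt) (hTBM : TBM_stmt) (hTDF : TDF_stmt) (s : ℝ) (W Ω : Set ℂ) (f : ℂ → ℂ) (C Vl : Finset ℂ)
    (m : ℂ → ℕ) (hOS : OS s W Ω f C Vl m) (a : ℂ) (ha : a ∈ W) :
    1 - hdf f W Ω a ≤ (1 - ∏ c ∈ C, (bl W a c) ^ (m c)) ^ 2 := by
  have h4 := hLO2 s W Ω f C Vl m hOS a ha
  set N := ∏ c ∈ C, (bl W a c) ^ (m c) with hN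
  have hN0 : 0 ≤ N := Finset.prod_nonneg fun c _ => pow_nonneg (LO2_bl01 hTBM hTDF hOS.s0 hOS.tw ha c).1 _
  have hq : (0 : ℝ) < 1 + N ^ 2 := by positivity
  have h5 : 2 * N / (1 + N ^ 2) ≤ hdf f W Ω a := by rwa [div_le_iff₀ hq]
  have h6 : 1 - 2 * N / (1 + N ^ 2) = (1 - N) ^ 2 / (1 + N ^ 2) := by
    field_simp
    ring
  have h7 : (1 - N) ^ 2 / (1 + N ^ 2) ≤ (1 - N) ^ 2 := div_le_self (by positivity) (by nlinarith [sq_nonneg N])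
  linarith

end RT

namespace RS
open RT

/-- LOT2: the loss of one step, power two (`RS.LOT_stmt` with `th` replaced by the square). -/
def LOT2_stmt : Prop := ∀ (Y : Dyn) (s δ e₀ : ℝ), Ok Y s δ e₀ → ∃ C : ℝ, 0 < C ∧ ∀ Ω : Set ℂ, Ω ⊆ Y.U → TD s Ω → ∀ a ∈ Y.D, Y.f a ∈ Ω →
  (∀ c ∈ Y.CP, 1 - bl (connectedComponentIn {z | z ∈ Y.D ∧ Y.f z ∈ Ω} a) a c ≤ 1 / 2) →
  Real.exp (-(C * ∑ c ∈ Y.CP, (1 - bl (connectedComponentIn {z | z ∈ Y.D ∧ Y.f z ∈ Ω} a) a c) ^ 2)) ≤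
    hdf Y.f (connectedComponentIn {z | z ∈ Y.D ∧ Y.f z ∈ Ω} a) Ω a

/-- LOS2: the same without smallness: `2 N ≤ hdf (1 + N²)`. -/
def LOS2_stmt : Prop := ∀ (Y : Dyn) (s δ e₀ : ℝ), Ok Y s δ e₀ → ∀ Ω : Set ℂ, Ω ⊆ Y.U → TD s Ω → ∀ a ∈ Y.D, Y.f a ∈ Ω →
  2 * ∏ c ∈ Y.CP, (bl (connectedComponentIn {z | z ∈ Y.D ∧ Y.f z ∈ Ω} a) a c) ^ (Y.ld c - 1) ≤
    hdf Y.f (connectedComponentIn {z | z ∈ Y.D ∧ Y.f z ∈ Ω} a) Ω a *
      (1 + (∏ c ∈ Y.CP, (bl (connectedComponentIn {z | z ∈ Y.D ∧ Y.f z ∈ Ω} a) a c) ^ (Y.ld c - 1)) ^ 2)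

theorem LOS2 (hHIN : HIN_stmt) (hLO2 : RT.LO2_stmt) : LOS2_stmt := by
  intro Y s δ e₀ hok Ω hΩU hΩ a haD hfa
  obtain ⟨haW, hOS⟩ := hHIN Y s δ e₀ hok Ω hΩU hΩ a haD hfa
  exact hLO2 _ _ _ _ _ _ _ hOS a haW

theorem LOT2 (hHIN : HIN_stmt) (hLO2 : RT.LO2_stmt) (hTBM : RT.TBM_stmt) (hTDF : RT.TDF_stmt) : LOT2_stmt := by
  intro Y s δ e₀ hok
  refine ⟨(Y.d : ℝ) ^ 2 * Y.CP.card * 2 ^ (Y.d * Y.CP.card) + 1, by positivity, ?_⟩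
  intro Ω hΩU hΩ a haD hfa hbl
  obtain ⟨haW, hOS⟩ := hHIN Y s δ e₀ hok Ω hΩU hΩ a haD hfa
  refine le_trans (Real.exp_le_exp.mpr (neg_le_neg ?_)) (RT.LO2E hLO2 hTBM hTDF _ _ _ _ _ _ _ hOS Y.d (fun c hc => by
    have := (hok.loc c hc).2.1
    show Y.ld c - 1 ≤ Y.d
    omega) a haW hbl)
  apply mul_le_mul_of_nonneg_right (by linarith)
  exact Finset.sum_nonneg fun c _ => sq_nonneg _

end RS

namespace RSG

theorem g_LO2 : RT.LO2_stmt := RT.LO2 RTG.g_RT_HGC RTG.g_RT_HLF RTG.g_RT_HBD RTG.g_RT_TBM RTG.g_RT_TBL RTG.g_RT_TDF RTG.g_RT_TSP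

theorem s_LOS2 : RS.LOS2_stmt := RS.LOS2 s_HIN g_LO2

theorem s_LOT2 : RS.LOT2_stmt := RS.LOT2 s_HIN g_LO2 RTG.g_RT_TBM RTG.g_RT_TDF

end RSG
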